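import Pool.Agent.W2helper31.BE.Stm

/-!
Project BE, piece GAUB: two upper bounds for the standard normal distribution function.
-/

set_option autoImplicit false

open MeasureTheory ProbabilityTheory Pool.Agent.W2helper31.BE

namespace Pool.Agent.W2helper77.BE

theorem half : ((gaussianReal 0 1) (Set.Iic (0 : ℝ))).toReal = 1 / 2 := by
  have h1 : (gaussianReal 0 1) (Set.Iic (0 : ℝ)) = (gaussianReal 0 1) (Set.Ici (0 : ℝ)) := by
    have h := gaussianReal_map_neg (μ := 0) (v := 1)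
    rw [neg_zero] at h
    conv_lhs => rw [← h]
    rw [Measure.map_apply measurable_neg measurableSet_Iic]
    congr 1
    ext x
    simp
  have := nullSingletonClass_gaussianReal (μ := 0) (v := 1) one_ne_zero
  have h2 : (gaussianReal 0 1) (Set.Ici (0 : ℝ)) = (gaussianReal 0 1) (Set.Ioi (0 : ℝ)) :=
    measure_congr Ioi_ae_eq_Ici.symm
  have h3 : (gaussianReal 0 1).real (Set.Iic (0 : ℝ)) + (gaussianReal 0 1).real (Set.Ioi (0 : ℝ))
      = 1 := by
    have := measureReal_add_measureReal_compl (μ := gaussianReal 0 1)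
      (measurableSet_Iic (a := (0 : ℝ)))
    rw [Set.compl_Iic] at this
    rw [this]
    simp
  have h4 : (gaussianReal 0 1).real (Set.Ioi (0 : ℝ)) =
      (gaussianReal 0 1).real (Set.Iic (0 : ℝ)) := by
    simp only [Measure.real, h1, h2]
  rw [h4] at h3
  change (gaussianReal 0 1).real (Set.Iic (0 : ℝ)) = 1 / 2
  linarith

theorem G_eq (x : ℝ) (hx : 0 ≤ x) :
    G x = 1 / 2 + (√(2 * Real.pi))⁻¹ * ∫ t in (0 : ℝ)..x, Real.exp (-t ^ 2 / 2) := by
  have h1 : G x = (gaussianReal 0 1).real (Set.Iic (0 : ℝ)) +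
      (gaussianReal 0 1).real (Set.Ioc 0 x) := by
    rw [← measureReal_union]
    · rw [Set.Iic_union_Ioc_eq_Iic hx]
      rfl
    · exact Set.disjoint_left.2 fun y hy hy' => absurd hy'.1 (not_lt.2 hy)
    · exact measurableSet_Ioc
  have h2 : (gaussianReal 0 1).real (Set.Ioc 0 x) =
      (√(2 * Real.pi))⁻¹ * ∫ t in (0 : ℝ)..x, Real.exp (-t ^ 2 / 2) := by
    rw [Measure.real, gaussianReal_apply_eq_integral _ one_ne_zero, ENNReal.toReal_ofReal
      (integral_nonneg fun t => gaussianPDFReal_nonneg _ _ _),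
      ← intervalIntegral.integral_of_le hx, ← intervalIntegral.integral_const_mul]
    refine intervalIntegral.integral_congr fun t _ => ?_
    simp [gaussianPDFReal]
  rw [h1, h2]
  congr 1
  exact half

theorem K_le : (√(2 * Real.pi))⁻¹ ≤ 2 / 5 := by
  have h : (5 / 2 : ℝ) ≤ √(2 * Real.pi) := by
    refine Real.le_sqrt_of_sq_le ?_
    nlinarith [Real.pi_gt_d2]
  calc (√(2 * Real.pi))⁻¹ ≤ (5 / 2 : ℝ)⁻¹ := inv_anti₀ (by norm_num) h
    _ = 2 / 5 := by norm_num

theorem K_nonneg : 0 ≤ (√(2 * Real.pi))⁻¹ := by positivity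

theorem cont : Continuous fun t : ℝ => Real.exp (-t ^ 2 / 2) := by fun_prop

theorem exp_le (u : ℝ) (hu : 0 ≤ u) : Real.exp (-u) ≤ 1 - u + u ^ 2 / 2 := by
  have h := Real.quadratic_le_exp_of_nonneg hu
  have h1 : Real.exp (-u) * Real.exp u = 1 := by rw [← Real.exp_add]; simp
  have h2 : 0 < Real.exp (-u) := Real.exp_pos _
  have h3 : Real.exp (-u) * (1 + u + u ^ 2 / 2) ≤ 1 := by
    calc Real.exp (-u) * (1 + u + u ^ 2 / 2) ≤ Real.exp (-u) * Real.exp u :=
          mul_le_mul_of_nonneg_left h h2.le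
      _ = 1 := h1
  have h4 : 1 ≤ (1 - u + u ^ 2 / 2) * (1 + u + u ^ 2 / 2) := by nlinarith [sq_nonneg (u ^ 2)]
  have h5 : 0 < 1 + u + u ^ 2 / 2 := by positivity
  exact le_of_mul_le_mul_right (h3.trans h4) h5

theorem I1 : ∫ t in (0 : ℝ)..1, Real.exp (-t ^ 2 / 2) ≤ 103 / 120 := by
  have h : ∫ t in (0 : ℝ)..1, Real.exp (-t ^ 2 / 2) ≤
      ∫ t in (0 : ℝ)..1, (1 - t ^ 2 * (1 / 2) + t ^ 4 * (1 / 8)) := by
    refine intervalIntegral.integral_mono_on (by norm_num) (cont.intervalIntegrable _ _)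
      ((by fun_prop : Continuous fun t : ℝ =>
        (1 - t ^ 2 * (1 / 2) + t ^ 4 * (1 / 8))).intervalIntegrable _ _) fun t _ => ?_
    have := exp_le (t ^ 2 / 2) (by positivity)
    have e : -t ^ 2 / 2 = -(t ^ 2 / 2) := by ring
    rw [e]
    nlinarith
  have h2 : ∫ t in (0 : ℝ)..1, (1 - t ^ 2 * (1 / 2) + t ^ 4 * (1 / 8)) = 103 / 120 := by
    rw [intervalIntegral.integral_add, intervalIntegral.integral_sub,
      intervalIntegral.integral_mul_const, intervalIntegral.integral_mul_const, integral_pow,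
      integral_pow]
    · norm_num
    · exact (continuous_const).intervalIntegrable _ _
    · exact (by fun_prop : Continuous fun t : ℝ => t ^ 2 * (1 / 2)).intervalIntegrable _ _
    · exact (by fun_prop : Continuous fun t : ℝ => 1 - t ^ 2 * (1 / 2)).intervalIntegrable _ _
    · exact (by fun_prop : Continuous fun t : ℝ => t ^ 4 * (1 / 8)).intervalIntegrable _ _
  linarith

theorem exp_half : Real.exp (-1 / 2) ≤ 61 / 100 := by
  have h : Real.exp (-1 / 2) ^ 2 ≤ (61 / 100 : ℝ) ^ 2 := by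
    rw [← Real.exp_nat_mul]
    have e : ((2 : ℕ) : ℝ) * (-1 / 2) = -1 := by norm_num
    rw [e]
    have := Real.exp_neg_one_lt_d9
    norm_num
    linarith
  exact le_of_sq_le_sq h (by norm_num)

theorem I2 (x : ℝ) (hx : 1 ≤ x) :
    ∫ t in (1 : ℝ)..x, Real.exp (-t ^ 2 / 2) ≤ 61 / 100 * (x - 1) := by
  have h : ∫ t in (1 : ℝ)..x, Real.exp (-t ^ 2 / 2) ≤ ∫ _t in (1 : ℝ)..x, (61 / 100 : ℝ) := by
    refine intervalIntegral.integral_mono_on hx (cont.intervalIntegrable _ _)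
      (continuous_const.intervalIntegrable _ _) fun t ht => ?_
    refine le_trans (Real.exp_le_exp.2 ?_) exp_half
    nlinarith [ht.1]
  rw [intervalIntegral.integral_const, smul_eq_mul] at h
  linarith

theorem I3 (x : ℝ) (hx : 0 ≤ x) : ∫ t in (0 : ℝ)..x, Real.exp (-t ^ 2 / 2) ≤ x := by
  have h : ∫ t in (0 : ℝ)..x, Real.exp (-t ^ 2 / 2) ≤ ∫ _t in (0 : ℝ)..x, (1 : ℝ) := by
    refine intervalIntegral.integral_mono_on hx (cont.intervalIntegrable _ _)
      (continuous_const.intervalIntegrable _ _) fun t ht => ?_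
    refine Real.exp_le_one_iff.2 ?_
    nlinarith [sq_nonneg t]
  rw [intervalIntegral.integral_const, smul_eq_mul] at h
  linarith

theorem p_gaub : P_GAUB := by
  refine ⟨fun x hx => ?_, fun x hx => ?_⟩
  · rw [G_eq x hx]
    have h1 := I3 x hx
    have h2 : (√(2 * Real.pi))⁻¹ * ∫ t in (0 : ℝ)..x, Real.exp (-t ^ 2 / 2) ≤
        (√(2 * Real.pi))⁻¹ * x := mul_le_mul_of_nonneg_left h1 K_nonneg
    have h3 : (√(2 * Real.pi))⁻¹ * x ≤ 2 / 5 * x := mul_le_mul_of_nonneg_right K_le hx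
    linarith
  · rw [G_eq x (by linarith)]
    have h0 : ∫ t in (0 : ℝ)..x, Real.exp (-t ^ 2 / 2) =
        (∫ t in (0 : ℝ)..1, Real.exp (-t ^ 2 / 2)) + ∫ t in (1 : ℝ)..x, Real.exp (-t ^ 2 / 2) :=
      (intervalIntegral.integral_add_adjacent_intervals (cont.intervalIntegrable _ _)
        (cont.intervalIntegrable _ _)).symm
    have h1 : ∫ t in (0 : ℝ)..x, Real.exp (-t ^ 2 / 2) ≤ 103 / 120 + 61 / 100 * (x - 1) := by
      rw [h0]
      exact add_le_add I1 (I2 x hx)
    have h2 : (√(2 * Real.pi))⁻¹ * ∫ t in (0 : ℝ)..x, Real.exp (-t ^ 2 / 2) ≤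
        (√(2 * Real.pi))⁻¹ * (103 / 120 + 61 / 100 * (x - 1)) :=
      mul_le_mul_of_nonneg_left h1 K_nonneg
    have h3 : (√(2 * Real.pi))⁻¹ * (103 / 120 + 61 / 100 * (x - 1)) ≤
        2 / 5 * (103 / 120 + 61 / 100 * (x - 1)) :=
      mul_le_mul_of_nonneg_right K_le (by linarith)
    linarith

end Pool.Agent.W2helper77.BE
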